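import Pool.Agent.K3h35.NX.Scal

set_option autoImplicit false
open MeasureTheory Filter Topology Set Metric

namespace Pool.Agent.K3h35.NX

open Pool.Agent.H314.Dir Pool.Agent.K3h35.GS Pool.Agent.Results.MP_e9f444_mp.ManyStrings

section key

variable {A : Fin 2 → Plane → ℝ} {φ : Plane → ℂ}

theorem sum_DD' (hA : ∀ j, Smooth (A j)) (hφ : Smooth φ)
    (b1 : ∀ x, covD A 1 φ x = Complex.I * covD A 0 φ x) (x : Plane) :
    covD A 0 (covD A 0 φ) x + covD A 1 (covD A 1 φ) x = -((field A 0 1 x : ℂ) * φ x) := by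
  have hc := covD_comm hA hφ 0 1 x
  have hz : Smooth (covD A 0 φ) := Smooth.covD hA hφ 0
  have e1 : covD A 1 φ = fun y => Complex.I * covD A 0 φ y := funext b1
  have e2 : covD A 0 (covD A 1 φ) x = Complex.I * covD A 0 (covD A 0 φ) x := by
    rw [e1, covD_smul hz]
  have e3 : covD A 1 (covD A 1 φ) x = Complex.I * covD A 1 (covD A 0 φ) x := by
    rw [e1, covD_smul hz]
  rw [e2] at hc
  rw [e3]
  have h4 : Complex.I * (Complex.I * covD A 0 (covD A 0 φ) x - covD A 1 (covD A 0 φ) x) =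
      Complex.I * -(Complex.I * (field A 0 1 x : ℂ) * φ x) := by rw [hc]
  have h5 : Complex.I * Complex.I = -1 := Complex.I_mul_I
  linear_combination (-1 : ℂ) * h4 + (covD A 0 (covD A 0 φ) x + (field A 0 1 x : ℂ) * φ x) * h5

theorem lap_normSq' (hA : ∀ j, Smooth (A j)) (hφ : Smooth φ)
    (b1 : ∀ x, covD A 1 φ x = Complex.I * covD A 0 φ x) (x : Plane) :
    ∑ j, pd j (pd j fun y => ‖φ y‖ ^ 2) x =
      4 * ‖covD A 0 φ x‖ ^ 2 - 2 * field A 0 1 x * ‖φ x‖ ^ 2 := by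
  have key : ∀ j : Fin 2, pd j (pd j fun y => ‖φ y‖ ^ 2) x = 2 * (‖covD A j φ x‖ ^ 2 +
      ((starRingEnd ℂ) (φ x) * covD A j (covD A j φ) x).re) := by
    intro j
    have e1 : (pd j fun y => ‖φ y‖ ^ 2) =
        fun y => (fun _ => (2 : ℝ)) y * ((starRingEnd ℂ) (φ y) * covD A j φ y).re :=
      funext fun y => pd_normSq hφ j y
    have hD : Smooth (covD A j φ) := Smooth.covD hA hφ j
    have hs : Smooth (fun y => ((starRingEnd ℂ) (φ y) * covD A j φ y).re) :=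
      Complex.reCLM.contDiff.comp (ContDiff.mul hφ.conj hD)
    have h0 : pd j (fun _ : Plane => (2 : ℝ)) x = 0 := by unfold pd; simp
    rw [e1, pd_mulR (contDiff_const) hs, h0, zero_mul, zero_add, pd_reConj (A := A) hφ hD]
    rw [Complex.add_re]
    have e2 : (starRingEnd ℂ) (covD A j φ x) * covD A j φ x = ((‖covD A j φ x‖ ^ 2 : ℝ) : ℂ) := by
      rw [mul_comm, normSq_eq]
    rw [e2, Complex.ofReal_re]
  have hn : ‖covD A 1 φ x‖ = ‖covD A 0 φ x‖ := by
    rw [b1 x, norm_mul, Complex.norm_I, one_mul]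
  rw [Fin.sum_univ_two, key, key, hn]
  have h1 := congrArg (fun w => ((starRingEnd ℂ) (φ x) * w).re) (sum_DD' hA hφ b1 x)
  simp only [mul_add, Complex.add_re] at h1
  have h2 : ((starRingEnd ℂ) (φ x) * -((field A 0 1 x : ℂ) * φ x)).re =
      -(field A 0 1 x * ‖φ x‖ ^ 2) := by
    have : (starRingEnd ℂ) (φ x) * -((field A 0 1 x : ℂ) * φ x) =
        ((-(field A 0 1 x * ‖φ x‖ ^ 2) : ℝ) : ℂ) := by
      have := normSq_eq (φ x)
      push_cast at this ⊢
      linear_combination (-(field A 0 1 x : ℂ)) * this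
    rw [this, Complex.ofReal_re]
  rw [h2] at h1
  linarith

theorem grad_normSq' (hφ : Smooth φ)
    (b1 : ∀ x, covD A 1 φ x = Complex.I * covD A 0 φ x) (x : Plane) :
    ∑ j, (pd j (fun y => ‖φ y‖ ^ 2) x) ^ 2 = 4 * ‖φ x‖ ^ 2 * ‖covD A 0 φ x‖ ^ 2 := by
  rw [Fin.sum_univ_two, pd_normSq (A := A) hφ 0 x, pd_normSq (A := A) hφ 1 x, b1 x,
    ← Complex.normSq_eq_norm_sq, ← Complex.normSq_eq_norm_sq, Complex.normSq_apply,
    Complex.normSq_apply]
  simp only [Complex.mul_re, Complex.mul_im, Complex.conj_re, Complex.conj_im, Complex.I_re,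
    Complex.I_im]
  ring

theorem key (hA : ∀ j, Smooth (A j)) (hφ : Smooth φ)
    (b1 : ∀ x, covD A 1 φ x = Complex.I * covD A 0 φ x) (x : Plane) :
    ‖φ x‖ ^ 2 * ∑ j, pd j (pd j fun y => ‖φ y‖ ^ 2) x - ∑ j, (pd j (fun y => ‖φ y‖ ^ 2) x) ^ 2 =
      -2 * field A 0 1 x * (‖φ x‖ ^ 2) ^ 2 := by
  rw [lap_normSq' hA hφ b1, grad_normSq' hφ b1]
  ring

end key

/-- for holomorphic functions -/
theorem key_hol {f : Plane → ℂ} (hf : Hol f) (x : Plane) :
    ‖f x‖ ^ 2 * ∑ j, pd j (pd j fun y => ‖f y‖ ^ 2) x - ∑ j, (pd j (fun y => ‖f y‖ ^ 2) x) ^ 2 =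
      0 := by
  have hA : ∀ j : Fin 2, Smooth ((fun _ _ => (0 : ℝ) : Fin 2 → Plane → ℝ) j) :=
    fun j => contDiff_const
  have h := key (A := fun _ _ => (0 : ℝ)) hA hf.1 (fun x => by
    unfold covD
    simp only [Complex.ofReal_zero, mul_zero, zero_mul, sub_zero]
    exact hf.2 x) x
  have h0 : field (fun _ _ => (0 : ℝ)) 0 1 x = 0 := by
    unfold field pd; simp
  rw [h, h0]
  ring

/-- the logarithmic derivative calculus -/
theorem log_calc {R v : Plane → ℝ} (hR : Smooth R) (hv : Smooth v) (x : Plane) :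
    (R x * Real.exp (v x)) * ∑ j, pd j (pd j fun y => R y * Real.exp (v y)) x -
        ∑ j, (pd j (fun y => R y * Real.exp (v y)) x) ^ 2 =
      Real.exp (v x) ^ 2 * (R x * ∑ j, pd j (pd j R) x - ∑ j, (pd j R x) ^ 2) +
        (R x * Real.exp (v x)) ^ 2 * ∑ j, pd j (pd j v) x := by
  have hE : Smooth (fun y => Real.exp (v y)) := ContDiff.exp hv
  have e1 : ∀ j, (pd j fun y => R y * Real.exp (v y)) =
      fun y => (fun y => pd j R y + R y * pd j v y) y * (fun y => Real.exp (v y)) y := by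
    intro j
    funext y
    rw [pd_mulR hR hE, pd_expR hv]
    ring
  have e2 : ∀ j, pd j (pd j fun y => R y * Real.exp (v y)) x = Real.exp (v x) *
      (pd j (pd j R) x + 2 * pd j R x * pd j v x + R x * pd j (pd j v) x +
        R x * pd j v x ^ 2) := by
    intro j
    have h1 : Smooth (fun y => R y * pd j v y) := ContDiff.mul hR (hv.pd j)
    have h2 : Smooth (fun y => pd j R y + R y * pd j v y) := ContDiff.add (hR.pd j) h1
    rw [e1 j, pd_mulR h2 hE, pd_add' (hR.pd j) h1, pd_mulR hR (hv.pd j), pd_expR hv]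
    ring
  simp only [Fin.sum_univ_two]
  rw [e2, e2, e1, e1]
  ring

/-- the equation for `v` -/
theorem b4_of {ε : ℝ} {η v : Plane → ℝ} {φ : Plane → ℂ} {A : Fin 2 → Plane → ℝ}
    {f : Plane → ℂ} (hA : ∀ j, Smooth (A j)) (hφ : Smooth φ) (hη : Smooth η)
    (b1 : ∀ x, covD A 1 φ x = Complex.I * covD A 0 φ x)
    (b2 : ∀ x, field A 0 1 x = -(1 / 2) * Real.exp (η x) * (‖φ x‖ ^ 2 - ε ^ 2))
    (hf : Hol f) (hf0 : Dense {x | f x ≠ 0}) (hv : Smooth v)
    (hW : ∀ x, ‖φ x‖ ^ 2 = ‖f x‖ ^ 2 * Real.exp (v x)) (x : Plane) :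
    ∑ j, pd j (pd j v) x = Real.exp (η x) * (‖φ x‖ ^ 2 - ε ^ 2) := by
  have hR : Smooth (fun y => ‖f y‖ ^ 2) := ContDiff.norm_sq ℝ hf.1
  have h1 : ∀ x, f x ≠ 0 →
      ∑ j, pd j (pd j v) x = Real.exp (η x) * (‖φ x‖ ^ 2 - ε ^ 2) := by
    intro x hx
    have e1 := key hA hφ b1 x
    have e2 := log_calc hR hv x
    rw [key_hol hf x, mul_zero, zero_add] at e2
    have e3 : (fun y => ‖φ y‖ ^ 2) = fun y => ‖f y‖ ^ 2 * Real.exp (v y) := funext hW
    rw [← e3, ← hW x, e1, b2 x] at e2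
    have h0 : ‖φ x‖ ^ 2 ≠ 0 := by
      rw [hW x]
      have := norm_pos_iff.2 hx
      positivity
    have h2 : (‖φ x‖ ^ 2) ^ 2 ≠ 0 := pow_ne_zero _ h0
    refine mul_left_cancel₀ h2 ?_
    linear_combination -e2
  have hc1 : Continuous (fun x => ∑ j, pd j (pd j v) x) :=
    continuous_finsetSum _ fun j _ => ContDiff.continuous ((hv.pd j).pd j)
  have hc2 : Continuous (fun x => Real.exp (η x) * (‖φ x‖ ^ 2 - ε ^ 2)) := by
    have hs : Smooth (fun y => ‖φ y‖ ^ 2) := ContDiff.norm_sq ℝ hφ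
    exact (Real.continuous_exp.comp (ContDiff.continuous hη)).mul
      ((ContDiff.continuous hs).sub continuous_const)
  have hcl : IsClosed {x | ∑ j, pd j (pd j v) x = Real.exp (η x) * (‖φ x‖ ^ 2 - ε ^ 2)} :=
    isClosed_eq hc1 hc2
  exact hcl.closure_subset_iff.2 (fun y hy => h1 y hy) (hf0 x)

/-- translations -/
theorem lap_comp_add (u : Eu 2 → ℝ) (p x : Eu 2) : lap (fun y => u (y + p)) x = lap u (x + p) := by
  unfold lap
  refine Finset.sum_congr rfl fun i _ => ?_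
  rw [iteratedFDeriv_comp_add_right]

/-- **No finite-energy strings at a single point (standard metric).** -/
theorem red (hX2 : St_X2) (hX3 : St_X3) (hX4 : St_X4) (hX5 : St_X5) (hX6 : St_X6) (hX7 : St_X7)
    {ε G : ℝ} (hε : 0 < ε) (hG : 0 < G) {N : ℕ} (hN : 1 ≤ N) {p : Plane} {η : Plane → ℝ}
    {φ : Plane → ℂ} {A : Fin 2 → Plane → ℝ} (hsol : IsSolution ε G η φ A)
    (hfin : FiniteEnergy ε η φ A) (hzero : ∀ x, φ x = 0 ↔ x = p) (hz : HasZero φ p N)
    {c : ℝ} {v : Plane → ℝ} (hv : Smooth v)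
    (hW : ∀ x, ‖φ x‖ ^ 2 = (‖x - p‖ ^ 2) ^ N * Real.exp (v x))
    (hη : ∀ x, η x = c + 4 * Real.pi * G * (ε ^ 2 * v x - ‖φ x‖ ^ 2)) :
    2 * Real.pi * ε ^ 2 * G * N < 1 := by
  obtain ⟨b1, b2⟩ := hX7 ε G η φ A 1 (fun _ => p) (fun _ => N) one_pos (fun _ => hN) hsol
    (fun x => by rw [hzero]; exact ⟨fun h => ⟨0, h⟩, fun ⟨_, h⟩ => h⟩) (fun _ => hz)
  have hηs := hsol.smooth_metric
  have hφs := hsol.smooth_higgs
  have hf : Hol (fun x => zc p x ^ N) := (hol_zc p).pow N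
  have hW' : ∀ x, ‖φ x‖ ^ 2 = ‖zc p x ^ N‖ ^ 2 * Real.exp (v x) := by
    intro x
    rw [hW, norm_pow, ← pow_mul ‖zc p x‖ N 2, mul_comm N 2, pow_mul, norm_zc]
  have hd : Dense {x | (fun x => zc p x ^ N) x ≠ 0} := by
    have : {x | (fun x => zc p x ^ N) x ≠ 0} = {p}ᶜ := by
      ext x
      simp only [mem_ofPred_eq, mem_compl_iff, mem_singleton_iff, ne_eq]
      rw [pow_eq_zero_iff (by omega), zc_eq_zero]
    rw [this]
    exact dense_compl_singleton p
  have b4 := b4_of hsol.smooth_gauge hφs hηs b1 b2 hf hd hv hW'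
  have hbps : BPS ε G η v φ A := ⟨hηs, hv, hφs, hsol.smooth_gauge, b1, b2, ⟨c, hη⟩, b4⟩
  have hpi := Real.pi_pos
  have hlη : ∀ x, lap η x ≤ 0 := by
    intro x
    rw [lap_eq_pd hηs, hbps.lap_eta]
    have : 0 ≤ 4 * Real.pi * G * (Real.exp (η x) * (‖φ x‖ ^ 2 - ε ^ 2) ^ 2 +
      4 * ‖covD A 0 φ x‖ ^ 2) := by positivity
    linarith
  have hiη : Integrable (lap η) := by
    refine (hfin.2.const_mul (-2)).congr (Eventually.of_forall fun x => ?_)
    simp only [gaussCurvature]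
    rw [lap_eq_pd hηs]
    have e1 : Real.exp (-η x) * Real.exp (η x) = 1 := by rw [← Real.exp_add]; simp
    linear_combination (∑ j, pd j (pd j η) x) * e1
  -- translate
  have htr : ContDiff ℝ ((⊤ : ℕ∞) : WithTop ℕ∞) (fun x : Plane => x + p) :=
    contDiff_id.add contDiff_const
  have h := scalar hX2 hX3 hX4 hX5 hX6 (κ := 4 * Real.pi * G) (e := ε ^ 2) (c := c)
    (by positivity) (by positivity) hN (fun x => v (x + p)) (ContDiff.comp hv htr)
    (fun x => ‖φ (x + p)‖ ^ 2) (fun x => η (x + p))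
    (fun x => by rw [hW, add_sub_cancel_right]) (fun x => hη _)
    (fun x => by rw [lap_comp_add, lap_eq_pd hv, b4])
    (fun x => by rw [lap_comp_add]; exact hlη _)
    (by
      have : lap (fun x => η (x + p)) = fun x => lap η (x + p) := funext fun x =>
        lap_comp_add η p x
      rw [this]
      exact hiη.comp_add_right p)
  linarith

end Pool.Agent.K3h35.NX
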