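import Pool.Agent.K3h35.GS.Lem

set_option autoImplicit false
open MeasureTheory Filter Topology Set Metric

namespace Pool.Agent.K3h35.NX

open Pool.Agent.H314.Dir Pool.Agent.K3h35.GS

/-- the average at radius `R` only depends on the closed ball of radius `R` -/
theorem J_congr {d : ℕ} {κ : Eu d → ℝ} (hκ : ∀ y, 1 ≤ ‖y‖ → κ y = 0) {u v : Eu d → ℝ} {s : ℝ}
    (hs : 0 ≤ s) {x : Eu d} (h : ∀ y ∈ closedBall x s, u y = v y) : J κ u s x = J κ v s x := by
  unfold J
  congr 1
  funext y
  rcases le_or_gt 1 ‖y‖ with hy | hy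
  · rw [hκ y hy, smul_zero, smul_zero]
  · rw [h]
    rw [mem_closedBall, dist_eq_norm, add_sub_cancel_left, norm_smul, Real.norm_of_nonneg hs]
    nlinarith

/-- representation formula for unbounded functions -/
theorem rep {d : ℕ} {u : Eu d → ℝ} (hu : ContDiff ℝ 2 u) {R : ℝ} (hR : 0 < R) (x : Eu d) :
    u x = J rho u R x + ∫ s in (0 : ℝ)..R, s * J sig (fun y => - lap u y) s x := by
  let χ : ContDiffBump x := ⟨R + 1, R + 2, by linarith, by linarith⟩
  have hχ1 : ∀ y, y ∈ closedBall x (R + 1) → χ y = 1 := fun y hy => χ.one_of_mem_closedBall hy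
  set V : Eu d → ℝ := fun y => χ y * u y with hV
  have hV2 : ContDiff ℝ 2 V := χ.contDiff.mul hu
  have hVc : HasCompactSupport V := HasCompactSupport.mul_right χ.hasCompactSupport
  obtain ⟨C, hC⟩ := hVc.exists_bound_of_continuous hV2.continuous
  have hVu : ∀ y ∈ ball x (R + 1), V =ᶠ[𝓝 y] u := by
    intro y hy
    filter_upwards [isOpen_ball.mem_nhds hy] with z hz
    simp only [hV]
    rw [hχ1 z (ball_subset_closedBall hz), one_mul]
  have hsub : closedBall x R ⊆ ball x (R + 1) := closedBall_subset_ball (by linarith)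
  have h1 := represent hV2 (fun y => (Real.norm_eq_abs (V y)).symm.le.trans (hC y)) hR x
  have h2 : V x = u x := (hVu x (mem_ball_self (by linarith))).self_of_nhds
  have h3 : J rho V R x = J rho u R x :=
    J_congr (fun y hy => rho_eq_zero hy) hR.le fun y hy => (hVu y (hsub hy)).self_of_nhds
  rw [h2, h3] at h1
  rw [h1, Npot, Pw]
  congr 1
  refine intervalIntegral.integral_congr fun s hs => ?_
  rw [uIcc_of_le hR.le] at hs
  simp only [zero_mul, sub_zero, one_mul, smul_eq_mul]
  congr 1
  refine J_congr (fun y hy => sig_eq_zero hy) hs.1 fun y hy => ?_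
  rw [lap_congr (hVu y (hsub (closedBall_subset_closedBall hs.2 hy)))]

end Pool.Agent.K3h35.NX
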