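import Pool.Agent.K3h35.NX.Stm
import Pool.Agent.K3h22.LogPot
import Pool.Agent.K3h3.GAH.T1

set_option autoImplicit false
open MeasureTheory Filter Topology Set Metric

namespace Pool.Agent.K3h35.NX

open Pool.Agent.H314.Dir Pool.Agent.K3h35.GS

/-- elementary: `(k) w - e^w` is bounded above -/
theorem lin_sub_exp_le {k : ℝ} (hk : 0 < k) (w : ℝ) : k * w - Real.exp w ≤ k * Real.log k - k := by
  have h := Real.add_one_le_exp (w - Real.log k)
  rw [Real.exp_sub, Real.exp_log hk, le_div_iff₀ hk] at h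
  linarith

/-- bounds outside the unit ball extend to the plane -/
theorem bound_add {F : Eu 2 → ℝ} (hF : Continuous F) {C : ℝ} (h : ∀ x, 1 ≤ ‖x‖ → F x ≤ C) :
    ∃ D : ℝ, ∀ x, F x ≤ D := by
  obtain ⟨C', hC'⟩ := (isCompact_closedBall (0 : Eu 2) 1).exists_bound_of_continuousOn
    hF.continuousOn
  refine ⟨max C C', fun x => ?_⟩
  rcases le_total ‖x‖ 1 with hx | hx
  · have h1 := hC' x (by simpa using hx)
    exact ((le_abs_self _).trans h1).trans (le_max_right _ _)
  · exact (h x hx).trans (le_max_left _ _)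

/-- bounds outside the unit ball extend to the plane -/
theorem bound_mul {F B : Eu 2 → ℝ} (hF : Continuous F) (hB : Continuous B) (hB0 : ∀ x, 0 < B x)
    {C : ℝ} (h : ∀ x, 1 ≤ ‖x‖ → F x ≤ C * B x) : ∃ D : ℝ, 0 < D ∧ ∀ x, F x ≤ D * B x := by
  obtain ⟨D, hD⟩ := bound_add (F := fun x => F x / B x) (hF.div hB fun x => (hB0 x).ne') (C := C)
    fun x hx => by rw [div_le_iff₀ (hB0 x)]; exact h x hx
  refine ⟨|D| + 1, by positivity, fun x => ?_⟩
  have h1 := hD x
  rw [div_le_iff₀ (hB0 x)] at h1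
  refine h1.trans (mul_le_mul_of_nonneg_right ?_ (hB0 x).le)
  linarith [le_abs_self D]

theorem log_far {x : Eu 2} (hx : 1 ≤ ‖x‖) :
    Real.log (1 + ‖x‖ ^ 2) - Real.log 2 ≤ Real.log (‖x‖ ^ 2) := by
  have h1 : 1 ≤ ‖x‖ ^ 2 := one_le_pow₀ hx
  have h2 : Real.log (1 + ‖x‖ ^ 2) ≤ Real.log (2 * ‖x‖ ^ 2) :=
    Real.log_le_log (by positivity) (by linarith)
  rw [Real.log_mul (by norm_num) (by positivity)] at h2
  linarith

theorem cont_L : Continuous (fun x : Eu 2 => Real.log (1 + ‖x‖ ^ 2)) := by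
  refine Continuous.log (by fun_prop) fun x => by positivity

theorem cont_LL : Continuous (fun x : Eu 2 => Real.log (1 + Real.log (1 + ‖x‖ ^ 2))) := by
  have h : Continuous (fun x : Eu 2 => 1 + Real.log (1 + ‖x‖ ^ 2)) := continuous_const.add cont_L
  refine Continuous.log h fun x => ?_
  have : 0 ≤ Real.log (1 + ‖x‖ ^ 2) := Real.log_nonneg (by nlinarith [sq_nonneg ‖x‖])
  positivity

theorem L_nonneg (x : Eu 2) : 0 ≤ Real.log (1 + ‖x‖ ^ 2) :=
  Real.log_nonneg (by nlinarith [sq_nonneg ‖x‖])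

theorem integrable_decay : Integrable (fun x : Eu 2 => ((1 + ‖x‖ ^ 2) ^ 2)⁻¹) := by
  have h := integrable_rpow_neg_one_add_norm_sq (E := Eu 2) (μ := volume) (r := 4)
    (by rw [finrank_euclideanSpace_fin]; norm_num)
  refine h.congr (Eventually.of_forall fun x => ?_)
  simp only
  rw [show (-4 / 2 : ℝ) = -(2 : ℕ) by norm_num, Real.rpow_neg (by positivity), Real.rpow_natCast]

theorem integrable_decay' : Integrable (fun x : Eu 2 => ‖x‖ * ((1 + ‖x‖ ^ 2) ^ 2)⁻¹) := by
  have h := integrable_rpow_neg_one_add_norm_sq (E := Eu 2) (μ := volume) (r := 3)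
    (by rw [finrank_euclideanSpace_fin]; norm_num)
  refine h.mono' (Continuous.aestronglyMeasurable (continuous_norm.mul
    (Continuous.inv₀ (by fun_prop) fun x => by positivity))) (Eventually.of_forall fun x => ?_)
  have h1 : 0 < 1 + ‖x‖ ^ 2 := by positivity
  rw [Real.norm_eq_abs, abs_of_nonneg (by positivity)]
  have h2 : ‖x‖ ≤ (1 + ‖x‖ ^ 2) ^ (1 / 2 : ℝ) := by
    rw [← Real.sqrt_eq_rpow]
    exact Real.le_sqrt_of_sq_le (by linarith)
  have h3 : ((1 + ‖x‖ ^ 2) ^ 2)⁻¹ = (1 + ‖x‖ ^ 2) ^ (-2 : ℝ) := by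
    rw [show (-2 : ℝ) = -(2 : ℕ) by norm_num, Real.rpow_neg h1.le, Real.rpow_natCast]
  rw [h3, show (-3 / 2 : ℝ) = 1 / 2 + -2 by norm_num, Real.rpow_add h1]
  exact mul_le_mul_of_nonneg_right h2 (Real.rpow_nonneg h1.le _)

/-- the scalar theorem -/
theorem scalar (hX2 : St_X2) (hX3 : St_X3) (hX4 : St_X4) (hX5 : St_X5) (hX6 : St_X6)
    {κ e c : ℝ} {N : ℕ} (hκ : 0 < κ) (he : 0 < e) (hN : 1 ≤ N) (v : Eu 2 → ℝ)
    (hv : ContDiff ℝ ((⊤ : ℕ∞) : WithTop ℕ∞) v) (W η : Eu 2 → ℝ)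
    (hW : ∀ x, W x = (‖x‖ ^ 2) ^ N * Real.exp (v x))
    (hη : ∀ x, η x = c + κ * (e * v x - W x))
    (hlap : ∀ x, lap v x = Real.exp (η x) * (W x - e))
    (hη1 : ∀ x, lap η x ≤ 0) (hη2 : Integrable (lap η)) : κ * e * N < 2 := by
  by_contra hcon
  rw [not_lt] at hcon
  have hN0 : (0 : ℝ) < N := by exact_mod_cast hN
  have hv2 : ContDiff ℝ 2 v := by exact_mod_cast contDiff_infty.1 hv 2
  have hvc : Continuous v := hv2.continuous
  have hnsq : ContDiff ℝ ((⊤ : ℕ∞) : WithTop ℕ∞) (fun x : Eu 2 => ‖x‖ ^ 2) := contDiff_norm_sq ℝ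
  have hWs : ContDiff ℝ ((⊤ : ℕ∞) : WithTop ℕ∞) W := by
    have : W = fun x => (‖x‖ ^ 2) ^ N * Real.exp (v x) := funext hW
    rw [this]
    exact (hnsq.pow N).mul hv.exp
  have hWc : Continuous W := hWs.continuous
  have hηs : ContDiff ℝ ((⊤ : ℕ∞) : WithTop ℕ∞) η := by
    have : η = fun x => c + κ * (e * v x - W x) := funext hη
    rw [this]
    exact contDiff_const.add (contDiff_const.mul ((contDiff_const.mul hv).sub hWs))
  have hη2c : ContDiff ℝ 2 η := by exact_mod_cast contDiff_infty.1 hηs 2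
  have hηc : Continuous η := hηs.continuous
  have hW0 : ∀ x, 0 ≤ W x := fun x => by rw [hW]; positivity
  -- the variable `w = log W`
  set w : Eu 2 → ℝ := fun x => v x + N * Real.log (‖x‖ ^ 2) with hw
  have hWw : ∀ x, 1 ≤ ‖x‖ → W x = Real.exp (w x) := by
    intro x hx
    have h0 : 0 < ‖x‖ ^ 2 := by positivity
    simp only [hw]
    rw [hW, Real.exp_add, Real.exp_nat_mul, Real.exp_log h0, mul_comm]
  have hηw : ∀ x, 1 ≤ ‖x‖ → η x = c + κ * (e * w x - Real.exp (w x)) -
      κ * e * N * Real.log (‖x‖ ^ 2) := by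
    intro x hx
    rw [hη, hWw x hx]
    simp only [hw]
    ring
  have hlog0 : ∀ x : Eu 2, 1 ≤ ‖x‖ → 0 ≤ Real.log (‖x‖ ^ 2) := fun x hx =>
    Real.log_nonneg (one_le_pow₀ hx)
  -- decay of `exp (b w - κ exp w) / |x|^4`
  have hdec : ∀ b : ℝ, 0 < b → ∃ C : ℝ, ∀ x : Eu 2, 1 ≤ ‖x‖ →
      Real.exp (c + b * w x - κ * Real.exp (w x) - κ * e * N * Real.log (‖x‖ ^ 2)) ≤
        C * ((1 + ‖x‖ ^ 2) ^ 2)⁻¹ := by
    intro b hb
    refine ⟨Real.exp (c + κ * (b / κ * Real.log (b / κ) - b / κ) + 2 * Real.log 2), fun x hx => ?_⟩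
    have h1 := lin_sub_exp_le (div_pos hb hκ) (w x)
    have h2 := mul_le_mul_of_nonneg_left h1 hκ.le
    have h3 : κ * (b / κ * w x - Real.exp (w x)) = b * w x - κ * Real.exp (w x) := by
      field_simp
    rw [h3] at h2
    have h4 : 2 * Real.log (‖x‖ ^ 2) ≤ κ * e * N * Real.log (‖x‖ ^ 2) :=
      mul_le_mul_of_nonneg_right hcon (hlog0 x hx)
    have h5 := log_far hx
    have h6 : ((1 + ‖x‖ ^ 2) ^ 2)⁻¹ = Real.exp (-(2 * Real.log (1 + ‖x‖ ^ 2))) := by
      rw [Real.exp_neg, show (2 : ℝ) * Real.log (1 + ‖x‖ ^ 2) = ((2 : ℕ) : ℝ) *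
        Real.log (1 + ‖x‖ ^ 2) by norm_num, Real.exp_nat_mul, Real.exp_log (by positivity)]
    rw [h6, ← Real.exp_add]
    refine Real.exp_le_exp.2 ?_
    linarith
  have hBc : Continuous (fun x : Eu 2 => ((1 + ‖x‖ ^ 2) ^ 2)⁻¹) :=
    Continuous.inv₀ (by fun_prop) fun x => by positivity
  have hB0 : ∀ x : Eu 2, 0 < ((1 + ‖x‖ ^ 2) ^ 2)⁻¹ := fun x => by positivity
  -- `exp η`
  obtain ⟨C1, hC1⟩ := hdec (κ * e) (by positivity)
  obtain ⟨D1, hD10, hD1⟩ := bound_mul (F := fun x => Real.exp (η x)) (by fun_prop) hBc hB0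
    (C := C1) fun x hx => by
      refine le_trans (le_of_eq ?_) (hC1 x hx)
      rw [hηw x hx]
      congr 1; ring
  -- `exp η W`
  obtain ⟨C2, hC2⟩ := hdec (κ * e + 1) (by positivity)
  obtain ⟨D2, hD20, hD2⟩ := bound_mul (F := fun x => Real.exp (η x) * W x) (by fun_prop) hBc hB0
    (C := C2) fun x hx => by
      refine le_trans (le_of_eq ?_) (hC2 x hx)
      rw [hWw x hx, ← Real.exp_add, hηw x hx]
      congr 1; ring
  set f : Eu 2 → ℝ := fun x => Real.exp (η x) * (W x - e) with hf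
  have hfs : ContDiff ℝ ((⊤ : ℕ∞) : WithTop ℕ∞) f := hηs.exp.mul (hWs.sub contDiff_const)
  have hf1 : ContDiff ℝ 1 f := by exact_mod_cast contDiff_infty.1 hfs 1
  have hfc : Continuous f := hfs.continuous
  set D : ℝ := D2 + e * D1 with hD
  have hD0 : 0 < D := by positivity
  have hfb : ∀ x, |f x| ≤ D * ((1 + ‖x‖ ^ 2) ^ 2)⁻¹ := by
    intro x
    have h1 := hD1 x
    have h2 := hD2 x
    have h3 : 0 ≤ Real.exp (η x) * W x := mul_nonneg (Real.exp_pos _).le (hW0 x)
    have h4 := Real.exp_pos (η x)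
    have h5 := mul_le_mul_of_nonneg_left h1 he.le
    have h6 := mul_pos he h4
    have h7 := hB0 x
    simp only [hf, hD]
    rw [abs_le]
    constructor <;> nlinarith
  have hfi : Integrable f := (integrable_decay.const_mul D).mono' hfc.aestronglyMeasurable
    (Eventually.of_forall fun x => by rw [Real.norm_eq_abs]; exact hfb x)
  have hB1 : ∀ x : Eu 2, ((1 + ‖x‖ ^ 2) ^ 2)⁻¹ ≤ 1 := fun x => inv_le_one_of_one_le₀
    (one_le_pow₀ (by nlinarith [sq_nonneg ‖x‖]))
  have hfbm : BM f D := ⟨hfc.measurable, fun x => (hfb x).trans (by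
    have := mul_le_mul_of_nonneg_left (hB1 x) hD0.le
    linarith)⟩
  -- lower bound for `η`
  obtain ⟨C3, hC3⟩ := hX3 η (Real.log D1) hη2c hη1 hη2 (fun x => by
    rw [Real.le_log_iff_exp_le hD10]
    have h1 := hD1 x
    have h2 := mul_le_mul_of_nonneg_left (hB1 x) hD10.le
    linarith)
  -- upper bound for `v`
  set K : ℝ := e * Real.log (2 * e) - e with hK
  set C4 : ℝ := 2 / κ * (|c| + |C3|) + 2 * |K| + 1 with hC4
  have hC40 : 0 < C4 := by
    have := abs_nonneg c; have := abs_nonneg C3; have := abs_nonneg K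
    have h2 : 0 ≤ 2 / κ * (|c| + |C3|) := by positivity
    simp only [hC4]; linarith
  have hL0 := L_nonneg
  have hwup : ∀ x : Eu 2, 1 ≤ ‖x‖ → w x ≤ Real.log C4 + Real.log (1 + Real.log (1 + ‖x‖ ^ 2)) := by
    intro x hx
    have hLx := hL0 x
    rw [← Real.log_mul hC40.ne' (by positivity), Real.le_log_iff_exp_le (by positivity)]
    have h1 := lin_sub_exp_le (k := 2 * e) (by positivity) (w x)
    have h2 := hC3 x
    have h3 := hηw x hx
    have h4 : 0 ≤ κ * e * N * Real.log (‖x‖ ^ 2) := by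
      have := hlog0 x hx
      positivity
    have h5 : κ * (Real.exp (w x) - e * w x) ≤ |c| + |C3| * (1 + Real.log (1 + ‖x‖ ^ 2)) := by
      have h6 : C3 * (1 + Real.log (1 + ‖x‖ ^ 2)) ≤ |C3| * (1 + Real.log (1 + ‖x‖ ^ 2)) :=
        mul_le_mul_of_nonneg_right (le_abs_self _) (by positivity)
      have h7 := le_abs_self c
      nlinarith
    have h6 : Real.exp (w x) / 2 - K ≤ Real.exp (w x) - e * w x := by
      simp only [hK]
      linarith
    have h7 : κ * (Real.exp (w x) / 2 - K) ≤ |c| + |C3| * (1 + Real.log (1 + ‖x‖ ^ 2)) :=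
      (mul_le_mul_of_nonneg_left h6 hκ.le).trans h5
    have h8 : Real.exp (w x) ≤ 2 / κ * (|c| + |C3| * (1 + Real.log (1 + ‖x‖ ^ 2))) + 2 * K := by
      have h9 : Real.exp (w x) = 2 / κ * (κ * (Real.exp (w x) / 2 - K)) + 2 * K := by
        field_simp
        ring
      rw [h9]
      have := mul_le_mul_of_nonneg_left h7 (show 0 ≤ 2 / κ by positivity)
      linarith
    refine h8.trans ?_
    have h9 : 2 / κ * (|c| + |C3| * (1 + Real.log (1 + ‖x‖ ^ 2))) ≤
        2 / κ * ((|c| + |C3|) * (1 + Real.log (1 + ‖x‖ ^ 2))) := by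
      refine mul_le_mul_of_nonneg_left ?_ (by positivity)
      have := mul_nonneg (abs_nonneg c) hLx
      linarith
    have h10 : 2 * K ≤ (2 * |K| + 1) * (1 + Real.log (1 + ‖x‖ ^ 2)) := by
      have h11 := le_abs_self K
      have h12 := mul_nonneg (abs_nonneg K) hLx
      nlinarith
    simp only [hC4]
    linarith
  obtain ⟨C5, hC5⟩ := bound_add (F := fun x => v x - Real.log (1 + Real.log (1 + ‖x‖ ^ 2)) +
      N * Real.log (1 + ‖x‖ ^ 2))
      ((hvc.sub cont_LL).add (continuous_const.mul cont_L))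
      (C := Real.log C4 + N * Real.log 2) (by
    intro x hx
    have h1 := hwup x hx
    have h2 := log_far hx
    have h3 := mul_le_mul_of_nonneg_left h2 hN0.le
    simp only [hw] at h1
    linarith)
  -- the Liouville step
  obtain ⟨c0, hc0, hT⟩ := Pool.Agent.K3h3.GAH.t_T1
  have hfL : ∀ x, LipNear f x := fun x =>
    lipNear_of_locallyLipschitz (fun x => hfbm.2 x) hf1.locallyLipschitz x
  obtain ⟨hTc, hTl⟩ := Pool.Agent.K3h22.GS.t_T3 f D hfbm hfi hfL
  obtain ⟨hT1, hT2⟩ := hT f D hfbm hfi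
  set M0 : ℝ := c0 * (D + ∫ y, |f y|) with hM0
  have hM00 : 0 ≤ M0 := by
    have : 0 ≤ ∫ y, |f y| := integral_nonneg fun _ => abs_nonneg _
    positivity
  have hlog1 : ∀ x : Eu 2, Real.log (1 + Real.log (1 + ‖x‖ ^ 2)) ≤ Real.log (1 + ‖x‖ ^ 2) := by
    intro x
    have hLx := hL0 x
    have := Real.log_le_sub_one_of_pos (show 0 < 1 + Real.log (1 + ‖x‖ ^ 2) by positivity)
    linarith
  have hlog2 : ∀ x : Eu 2, 0 ≤ Real.log (1 + Real.log (1 + ‖x‖ ^ 2)) := fun x =>
    Real.log_nonneg (by linarith [hL0 x])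
  have hvT : ∀ x, v x = Tp f x + (v 0 - Tp f 0) := by
    have h1 := hX2 (fun x => v x - Tp f x) (|C5| + M0 + 1) (hv2.sub hTc)
      (fun x => by
        rw [lap_sub hv2.contDiffAt hTc.contDiffAt, hTl, hlap]
        simp only [hf, sub_self])
      (fun x => by
        have h2 := hC5 x
        have h3 := (abs_le.1 (hT1 x)).1
        have h4 := hlog1 x
        have h5 := hL0 x
        have h6 := mul_nonneg hN0.le h5
        have h7 := le_abs_self C5
        have h8 := mul_nonneg (abs_nonneg C5) h5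
        have h9 := mul_nonneg hM00 h5
        nlinarith)
    intro x
    have := h1 x
    linarith
  have hdv : ∀ x, fderiv ℝ v x = fderiv ℝ (Tp f) x := by
    intro x
    have : v = fun x => Tp f x + (v 0 - Tp f 0) := funext hvT
    conv_lhs => rw [this]
    rw [fderiv_add_const]
  -- the mass
  set F : ℝ := ∫ x, f x with hF
  have hmass : F ≤ -(4 * Real.pi * N) := by
    refine hX4 v f (max C5 1) D N hv2 hlap hfbm hfi hN0.le fun x => ?_
    have h2 := hC5 x
    have h3 := hlog2 x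
    have h4 := mul_le_mul_of_nonneg_right (le_max_right C5 1) h3
    have h5 := le_max_left C5 1
    linarith
  -- the integrals
  have hi1 : Integrable (fun x => Real.exp (η x)) :=
    (integrable_decay.const_mul D1).mono' (by fun_prop)
      (Eventually.of_forall fun x => by rw [Real.norm_eq_abs, Real.abs_exp]; exact hD1 x)
  have hi2 : Integrable (fun x => Real.exp (η x) * W x) :=
    (integrable_decay.const_mul D2).mono' (by fun_prop)
      (Eventually.of_forall fun x => by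
        rw [Real.norm_eq_abs, abs_of_nonneg (mul_nonneg (Real.exp_pos _).le (hW0 x))]; exact hD2 x)
  set I : ℝ := ∫ x, Real.exp (η x) with hI
  set IW : ℝ := ∫ x, Real.exp (η x) * W x with hIW
  have hFI : F = IW - e * I := by
    simp only [hF, hI, hIW, hf]
    rw [← integral_const_mul, ← integral_sub hi2 (hi1.const_mul e)]
    congr 1
    funext x
    ring
  have hIW0 : 0 < IW := by
    refine (integral_pos_iff_support_of_nonneg (fun x => mul_nonneg (Real.exp_pos _).le (hW0 x))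
      hi2).2 ?_
    have h1 : ({0}ᶜ : Set (Eu 2)) ⊆ Function.support (fun x => Real.exp (η x) * W x) := by
      intro x hx
      have hx0 : x ≠ 0 := hx
      have h2 : 0 < ‖x‖ := norm_pos_iff.2 hx0
      rw [Function.mem_support, hW]
      positivity
    exact lt_of_lt_of_le (isOpen_compl_singleton.measure_pos _ ⟨EuclideanSpace.single 0 1, by
      intro h
      have := congrArg (fun z : Eu 2 => z 0) (show (EuclideanSpace.single 0 1 : Eu 2) = 0 from h)
      simp at this⟩) (measure_mono h1)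
  -- the dilation derivatives
  have hdΨ : ∀ x, fderiv ℝ (fun x => Real.exp (η x)) x x =
      -κ * (f x * fderiv ℝ (Tp f) x x) - 2 * N * κ * (Real.exp (η x) * W x) := by
    intro x
    have hvx : HasFDerivAt v (fderiv ℝ v x) x := (hv2.differentiable (by norm_num) x).hasFDerivAt
    have hn : HasFDerivAt (fun x : Eu 2 => ‖x‖ ^ 2) (2 • innerSL ℝ x) x :=
      (hasStrictFDerivAt_norm_sq x).hasFDerivAt
    have hWx := (hn.pow N).mul hvx.exp
    have hWeq : (fun x : Eu 2 => (‖x‖ ^ 2) ^ N * Real.exp (v x)) = W := (funext hW).symm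
    have hηx := ((((hvx.const_mul e).sub hWx).const_mul κ).const_add c).exp
    have h3 := hηx.congr_of_eventuallyEq (f₁ := fun x => Real.exp (η x))
      (Eventually.of_forall fun y => by
        show Real.exp (η y) = Real.exp (c + κ * (e * v y - (‖y‖ ^ 2) ^ N * Real.exp (v y)))
        rw [hη y, hW y])
    rw [h3.fderiv, ← hdv]
    have h4 : inner ℝ x x = ‖x‖ ^ 2 := real_inner_self_eq_norm_sq x
    have h5 : ((‖x‖ ^ 2) ^ (N - 1) : ℝ) * ‖x‖ ^ 2 = (‖x‖ ^ 2) ^ N := by
      rw [← pow_succ, Nat.sub_add_cancel hN]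
    have h6 := hη x
    have h7 := hW x
    have h8 : Real.exp (c + κ * (((fun y : Eu 2 => e * v y) - (fun x : Eu 2 => (‖x‖ ^ 2) ^ N) *
        fun x : Eu 2 => Real.exp (v x) : Eu 2 → ℝ) x)) = Real.exp (η x) := by
      show Real.exp (c + κ * (e * v x - (‖x‖ ^ 2) ^ N * Real.exp (v x))) = _
      rw [hη x, hW x]
    rw [h8]
    simp only [ContinuousLinearMap.smul_apply, ContinuousLinearMap.sub_apply,
      ContinuousLinearMap.add_apply, innerSL_apply_apply, smul_eq_mul, nsmul_eq_mul, h4, hf, h7]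
    have h9 : (N : ℝ) * (‖x‖ ^ 2) ^ (N - 1) * (((2 : ℕ) : ℝ) * ‖x‖ ^ 2) =
        2 * N * (‖x‖ ^ 2) ^ N := by
      rw [← h5]; push_cast; ring
    linear_combination (-κ * Real.exp (η x) * Real.exp (v x)) * h9
  -- integrability of the derivative term
  have hTd : ∀ x, ‖fderiv ℝ (Tp f) x‖ ≤ M0 := by
    intro x
    refine norm_fderiv_le_of_lipschitzOn ℝ (s := univ) (C := M0.toNNReal) univ_mem ?_ |>.trans ?_
    · refine LipschitzWith.lipschitzOnWith (LipschitzWith.of_dist_le_mul fun a b => ?_)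
      rw [Real.dist_eq, dist_eq_norm]
      exact (hT2 a b).trans (mul_le_mul_of_nonneg_right (Real.le_coe_toNNReal _) (norm_nonneg _))
    · rw [Real.coe_toNNReal _ hM00]
  have hi3 : Integrable (fun x => f x * fderiv ℝ (Tp f) x x) := by
    refine (integrable_decay'.const_mul (D * M0)).mono' (Continuous.aestronglyMeasurable
      (hfc.mul ((hTc.continuous_fderiv (by norm_num)).clm_apply continuous_id)))
      (Eventually.of_forall fun x => ?_)
    rw [norm_mul, Real.norm_eq_abs, Real.norm_eq_abs]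
    have h1 : |fderiv ℝ (Tp f) x x| ≤ M0 * ‖x‖ := by
      rw [← Real.norm_eq_abs]
      exact ((fderiv ℝ (Tp f) x).le_opNorm x).trans
        (mul_le_mul_of_nonneg_right (hTd x) (norm_nonneg _))
    calc |f x| * |fderiv ℝ (Tp f) x x| ≤ (D * ((1 + ‖x‖ ^ 2) ^ 2)⁻¹) * (M0 * ‖x‖) :=
          mul_le_mul (hfb x) h1 (abs_nonneg _) (mul_nonneg hD0.le (hB0 x).le)
      _ = D * M0 * (‖x‖ * ((1 + ‖x‖ ^ 2) ^ 2)⁻¹) := by ring
  have h5 := hX5 f D hf1 hfb
  have hi4 : Integrable (fun x => fderiv ℝ (fun x => Real.exp (η x)) x x) := by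
    have : (fun x => fderiv ℝ (fun x => Real.exp (η x)) x x) = fun x =>
        -κ * (f x * fderiv ℝ (Tp f) x x) - 2 * N * κ * (Real.exp (η x) * W x) := funext hdΨ
    rw [this]
    exact (hi3.const_mul _).sub (hi2.const_mul _)
  have h6 := hX6 (fun x => Real.exp (η x)) D1 (by
      have := hηs.exp
      exact_mod_cast contDiff_infty.1 this 1)
    (fun x => by rw [Real.abs_exp]; exact hD1 x) hi4
  have h7 : ∫ x, fderiv ℝ (fun x => Real.exp (η x)) x x =
      -κ * (F ^ 2 / (4 * Real.pi)) - 2 * N * κ * IW := by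
    have : (fun x => fderiv ℝ (fun x => Real.exp (η x)) x x) = fun x =>
        -κ * (f x * fderiv ℝ (Tp f) x x) - 2 * N * κ * (Real.exp (η x) * W x) := funext hdΨ
    rw [this, integral_sub (hi3.const_mul _) (hi2.const_mul _), integral_const_mul,
      integral_const_mul, h5]
  rw [h7] at h6
  have hpi := Real.pi_pos
  have hM : 4 * Real.pi * N ≤ -F := by linarith
  have hM0' : 0 < -F := lt_of_lt_of_le (by positivity) hM
  have hA : N * (-F) ≤ F ^ 2 / (4 * Real.pi) := by
    rw [le_div_iff₀ (by positivity)]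
    nlinarith
  have hA2 := mul_le_mul_of_nonneg_left hA (show 0 ≤ κ * e by positivity)
  have hB := mul_le_mul_of_nonneg_right hcon hM0'.le
  have hC := mul_le_mul_of_nonneg_right hcon hIW0.le
  have h8 : κ * e * (F ^ 2 / (4 * Real.pi)) + 2 * (κ * e * N * IW) = 2 * (IW - F) := by
    rw [hFI] at h6 ⊢
    linear_combination (-e) * h6
  nlinarith

end Pool.Agent.K3h35.NX
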