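import Pool.Agent.K3h35.NX.Rep
import Pool.Agent.Results.MP_e9f444_mp.ManyStrings

/-!
# No finite-energy strings at a single point beyond the symmetric bound (standard metric)

Exact statements of the bricks.
-/

set_option autoImplicit false
open MeasureTheory Filter Topology Set Metric

namespace Pool.Agent.K3h35.NX

open Pool.Agent.H314.Dir Pool.Agent.K3h35.GS Pool.Agent.Results.MP_e9f444_mp.ManyStrings

/-- Brick X2: Liouville theorem, one-sided logarithmic bound. -/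
def St_X2 : Prop := ∀ (h : Eu 2 → ℝ) (C : ℝ), ContDiff ℝ 2 h → (∀ x, lap h x = 0) →
  (∀ x, h x ≤ C * (1 + Real.log (1 + ‖x‖ ^ 2))) → ∀ x, h x = h 0

/-- Brick X3: superharmonic functions of finite mass, bounded above, decrease at most
logarithmically. -/
def St_X3 : Prop := ∀ (h : Eu 2 → ℝ) (C : ℝ), ContDiff ℝ 2 h → (∀ x, lap h x ≤ 0) →
  Integrable (lap h) → (∀ x, h x ≤ C) →
  ∃ C' : ℝ, ∀ x, -C' * (1 + Real.log (1 + ‖x‖ ^ 2)) ≤ h x

/-- Brick X4: the mass is determined by the growth of the means. -/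
def St_X4 : Prop := ∀ (v f : Eu 2 → ℝ) (C D N : ℝ), ContDiff ℝ 2 v → (∀ x, lap v x = f x) →
  BM f D → Integrable f → 0 ≤ N →
  (∀ x, v x ≤ C + C * Real.log (1 + Real.log (1 + ‖x‖ ^ 2)) - N * Real.log (1 + ‖x‖ ^ 2)) →
  ∫ x, f x ≤ -(4 * Real.pi * N)

/-- Brick X5: the virial identity for the potential. -/
def St_X5 : Prop := ∀ (f : Eu 2 → ℝ) (C : ℝ), ContDiff ℝ 1 f →
  (∀ x, |f x| ≤ C * ((1 + ‖x‖ ^ 2) ^ 2)⁻¹) →
  ∫ x, f x * fderiv ℝ (Tp f) x x = (∫ x, f x) ^ 2 / (4 * Real.pi)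

/-- Brick X6: the integrated dilation derivative. -/
def St_X6 : Prop := ∀ (g : Eu 2 → ℝ) (C : ℝ), ContDiff ℝ 1 g →
  (∀ x, |g x| ≤ C * ((1 + ‖x‖ ^ 2) ^ 2)⁻¹) → Integrable (fun x => fderiv ℝ g x x) →
  ∫ x, fderiv ℝ g x x = -2 * ∫ x, g x

/-- Brick X7: unique continuation.  A solution of the second order equations, whose Higgs field has
a zero of positive multiplicity and only finitely many zeros, satisfies the first order equations. -/
def St_X7 : Prop := ∀ (ε G : ℝ) (η : Plane → ℝ) (φ : Plane → ℂ) (A : Fin 2 → Plane → ℝ)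
  (K : ℕ) (p : Fin K → Plane) (n : Fin K → ℕ), 0 < K → (∀ k, 1 ≤ n k) → IsSolution ε G η φ A →
  (∀ x, φ x = 0 ↔ ∃ k, x = p k) → (∀ k, HasZero φ (p k) (n k)) →
  (∀ x, covD A 1 φ x = Complex.I * covD A 0 φ x) ∧
    ∀ x, field A 0 1 x = -(1 / 2) * Real.exp (η x) * (‖φ x‖ ^ 2 - ε ^ 2)

end Pool.Agent.K3h35.NX
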